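import Pool.Agent.R798.Main

/-! # A linear lower bound for the number of knots from a reduced shadow -/

set_option autoImplicit false

namespace Pool.Agent.Results.MP_a5f24b_gt.LinearBound

open Pool.Agent.R798

/-- Every reduced shadow `w` with `n` crossings resolves into at least `n / 3 + 1` pairwise different
types of knots. In particular it resolves into more than `c * n` knots, with `c = 1 / 3`. -/
theorem result (n : ℕ) (w : List Pass) (hw : IsPlaneCurve w) (hn : w.length = 2 * n)
    (hr : ∀ x ∈ w, ¬ Nugatory w x) : (1 / 3 : ℝ) * n + 1 ≤ numKnots w := by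
  have h := numKnots_ge hw hn hr
  have h' : ((n + 3 : ℕ) : ℝ) ≤ ((3 * numKnots w : ℕ) : ℝ) := by exact_mod_cast h
  push_cast at h'
  linarith

end Pool.Agent.Results.MP_a5f24b_gt.LinearBound
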